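import Pool.Agent.Q296.Bruhat.Block

/-! # The middle-gap measure on permutations is positively associated

For every `n` and every `q > 0` the measure `μ_q(a) ∝ q ^ m(a)` on `S_n` is positively associated
for the strong (Bruhat) order.  More generally so is every measure
`μ(a) ∝ ∏_{k ≤ h} x(a_k)` with positive `x(1), …, x(n)`.

A permutation `a : Equiv.Perm (Fin n)` has the entry `a k` at position `k`, and
`pos(a, i) = a.symm i`; positions and entries are numbered from `0`. -/

set_option autoImplicit false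

namespace Pool.Agent.Results.MP_8cb698_co.MiddleGapAssociated

open Finset Pool.Agent.Q296.Bruhat

/-- strong up-sets: whenever `a ∈ A` and `{i, j}` is an inversion of `a`, exchanging the entries
`i` and `j` gives an element of `A` -/
def StrongUp {n : ℕ} (A : Finset (Equiv.Perm (Fin n))) : Prop :=
  ∀ a ∈ A, ∀ i j : Fin n, i < j → a.symm j < a.symm i → Equiv.swap i j * a ∈ A

/-- the probability measure with weights proportional to `w` -/
noncomputable def prob {n : ℕ} (w : Equiv.Perm (Fin n) → ℝ)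
    (A : Finset (Equiv.Perm (Fin n))) : ℝ := (∑ a ∈ A, w a) / ∑ a, w a

/-- the number of entries carried across the middle gap -/
def m {n : ℕ} (a : Equiv.Perm (Fin n)) : ℕ :=
  (Finset.univ.filter (fun k : Fin n => 2 * ((k : ℕ) + 1) ≤ n ∧ n < 2 * ((a k : ℕ) + 1))).card

/-- the middle-gap measure -/
noncomputable def μ {n : ℕ} (q : ℝ) (A : Finset (Equiv.Perm (Fin n))) : ℝ :=
  prob (fun a => q ^ m a) A

/-- the weight `∏_{k ≤ h} x(a_k)` (the product of the entries' weights at the first `h`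
positions) -/
noncomputable def wt {n : ℕ} (h : ℕ) (x : Fin n → ℝ) (a : Equiv.Perm (Fin n)) : ℝ :=
  ∏ k : Fin n, if (k : ℕ) < h then x (a k) else 1

lemma general {n h : ℕ} {x : Fin n → ℝ} (hn : h ≤ n) (hx : ∀ v, 0 < x v)
    {A B : Finset (Equiv.Perm (Fin n))} (hA : StrongUp A) (hB : StrongUp B) :
    prob (wt h x) A * prob (wt h x) B ≤ prob (wt h x) (A ∩ B) := by
  obtain ⟨l, rfl⟩ := Nat.exists_eq_add_of_le hn
  have hw : ∀ a : Equiv.Perm (Fin (h + l)), wt h x a = ∏ k : Fin h, x (a (Fin.castAdd l k)) := by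
    intro a
    unfold wt
    rw [Fin.prod_univ_add]
    simp
  have hpos : ∀ a : Equiv.Perm (Fin (h + l)), 0 < wt h x a := by
    intro a
    rw [hw]
    exact Finset.prod_pos fun k _ => hx _
  obtain ⟨W, hW⟩ : ∃ W, W = ∑ a, wt h x a := ⟨_, rfl⟩
  have hW0 : 0 < W := by
    rw [hW]
    exact Finset.sum_pos (fun a _ => hpos a) ⟨1, Finset.mem_univ _⟩
  have hmono : ∀ C : Finset (Equiv.Perm (Fin (h + l))), StrongUp C →
      ∀ a b, Up a b → (if a ∈ C then (1 : ℝ) else 0) ≤ if b ∈ C then (1 : ℝ) else 0 := by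
    rintro C hC a b ⟨i, j, hij, h1, rfl⟩
    by_cases ha : a ∈ C
    · rw [if_pos ha, if_pos (hC a ha i j hij h1)]
    · rw [if_neg ha]
      split_ifs <;> norm_num
  have key := PA_block x (fun v => (hx v).le) (fun a => if a ∈ A then (1 : ℝ) else 0)
    (fun a => if a ∈ B then (1 : ℝ) else 0) (hmono A hA) (hmono B hB)
  have hsum : ∀ C : Finset (Equiv.Perm (Fin (h + l))),
      ∑ a, (∏ k : Fin h, x (a (Fin.castAdd l k))) * (if a ∈ C then (1 : ℝ) else 0) =
        ∑ a ∈ C, wt h x a := by
    intro C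
    simp only [mul_ite, mul_one, mul_zero, ← hw]
    rw [Finset.sum_ite_mem, Finset.univ_inter]
  have hAB : ∀ a : Equiv.Perm (Fin (h + l)), (if a ∈ A then (1 : ℝ) else 0) *
      (if a ∈ B then (1 : ℝ) else 0) = if a ∈ A ∩ B then 1 else 0 := by
    intro a
    by_cases h1 : a ∈ A <;> by_cases h2 : a ∈ B <;> simp [h1, h2]
  simp only [hAB] at key
  rw [hsum, hsum, hsum] at key
  simp only [← hw] at key
  rw [← hW] at key
  unfold prob
  rw [← hW, div_mul_div_comm, div_le_div_iff₀ (mul_pos hW0 hW0) hW0]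
  nlinarith [key]

lemma pow_m {n : ℕ} (q : ℝ) (a : Equiv.Perm (Fin n)) :
    q ^ m a = wt (n / 2) (fun v : Fin n => if n < 2 * ((v : ℕ) + 1) then q else 1) a := by
  unfold m wt
  have h1 : ∀ k : Fin n, (if (k : ℕ) < n / 2 then
      (if n < 2 * ((a k : ℕ) + 1) then q else 1) else 1) =
      if 2 * ((k : ℕ) + 1) ≤ n ∧ n < 2 * ((a k : ℕ) + 1) then q else 1 := by
    intro k
    by_cases h2 : (k : ℕ) < n / 2
    · rw [if_pos h2]
      by_cases h3 : n < 2 * ((a k : ℕ) + 1)
      · rw [if_pos h3, if_pos ⟨by omega, h3⟩]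
      · rw [if_neg h3, if_neg (fun h => h3 h.2)]
    · rw [if_neg h2, if_neg (fun h => h2 (by omega))]
  rw [Finset.prod_congr rfl (fun k _ => h1 k), Finset.prod_ite, Finset.prod_const,
    Finset.prod_const_one, mul_one]

/-- **Main theorem.** -/
theorem result :
    -- Question 1: the middle-gap measure is positively associated, for every `n` and `q > 0`
    (∀ (n : ℕ) (q : ℝ), 0 < q → ∀ A B : Finset (Equiv.Perm (Fin n)), StrongUp A → StrongUp B →
      μ q A * μ q B ≤ μ q (A ∩ B)) ∧
    -- more generally every measure proportional to `∏_{k ≤ h} x(a_k)`, `x > 0`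
    (∀ (n h : ℕ) (x : Fin n → ℝ), h ≤ n → (∀ v, 0 < x v) →
      ∀ A B : Finset (Equiv.Perm (Fin n)), StrongUp A → StrongUp B →
      prob (wt h x) A * prob (wt h x) B ≤ prob (wt h x) (A ∩ B)) := by
  refine ⟨fun n q hq A B hA hB => ?_, fun n h x hn hx A B hA hB => general hn hx hA hB⟩
  have h1 : (fun a : Equiv.Perm (Fin n) => q ^ m a) =
      wt (n / 2) (fun v : Fin n => if n < 2 * ((v : ℕ) + 1) then q else 1) := by
    funext a
    exact pow_m q a
  unfold μ
  rw [h1]
  exact general (Nat.div_le_self n 2) (fun v => by split_ifs <;> linarith) hA hB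

end Pool.Agent.Results.MP_8cb698_co.MiddleGapAssociated
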